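import Pool.Agent.K7.H12.SR.Poly

/-!
# Values of finitely many polynomials near which the radical is small
-/

set_option autoImplicit false

namespace Pool.Agent.K7.H12.SR

open Polynomial Finset

/-- `U = q + A₀ (X - r) ^ d`, and `A = A₀ / (denominator of r) ^ d` -/
def Pr (d : ℕ) (U : ℤ[X]) (x : ℚ × ℚ) : Prop :=
  ∃ r A₀ : ℚ, A₀ ≠ 0 ∧ U.map (Int.castRingHom ℚ) = C x.1 + C A₀ * (X - C r) ^ d ∧
    x.2 = A₀ / (r.den : ℚ) ^ d

lemma eval_map' (U : ℤ[X]) (k : ℤ) :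
    (U.map (Int.castRingHom ℚ)).eval (k : ℚ) = ((U.eval k : ℤ) : ℚ) := by
  rw [eval_map, eval₂_at_intCast]
  simp

lemma Pr.val {d : ℕ} {U : ℤ[X]} {x : ℚ × ℚ} (h : Pr d U x) (k : ℤ) :
    ∃ z : ℤ, ((U.eval k : ℤ) : ℚ) = x.1 + x.2 * (z : ℚ) ^ d := by
  obtain ⟨r, A₀, -, h1, h2⟩ := h
  refine ⟨r.den * k - r.num, ?_⟩
  rw [← eval_map', h1, h2]
  have hden : (r.den : ℚ) ≠ 0 := by exact_mod_cast r.den_nz
  have hr : (r.num : ℚ) = r * r.den := (Rat.mul_den_eq_num r).symm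
  simp only [eval_add, eval_C, eval_mul, eval_pow, eval_sub, eval_X]
  push_cast
  rw [hr, show (r.den : ℚ) * k - r * r.den = r.den * (k - r) by ring, mul_pow]
  field_simp

lemma Pr.uniq {d : ℕ} (hd : 2 ≤ d) {U : ℤ[X]} {x y : ℚ × ℚ} (hx : Pr d U x) (hy : Pr d U y) :
    x.1 = y.1 := by
  obtain ⟨r, A, hA, h1, -⟩ := hx
  obtain ⟨r', A', hA', h2, -⟩ := hy
  have h3 : C x.1 + C A * (X - C r) ^ d = C y.1 + C A' * (X - C r') ^ d := by rw [← h1, h2]
  have h4 := congrArg derivative h3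
  have h5 := congrArg (Polynomial.eval r) h4
  have hd1 : d - 1 ≠ 0 := by omega
  simp only [derivative_add, derivative_C, derivative_mul, derivative_X_sub_C_pow, zero_add,
    eval_add, eval_mul, eval_C, eval_pow, eval_sub, eval_X, zero_mul, eval_natCast, sub_self,
    zero_pow hd1, mul_zero, eval_zero] at h5
  have hdQ : (d : ℚ) ≠ 0 := by
    have : d ≠ 0 := by omega
    exact_mod_cast this
  have h6 : r = r' := by
    rcases mul_eq_zero.1 h5.symm with h | h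
    · exact absurd h hA'
    · rcases mul_eq_zero.1 h with h | h
      · exact absurd h hdQ
      · exact sub_eq_zero.1 (pow_eq_zero_iff hd1 |>.1 h)
  have h7 := congrArg (Polynomial.eval r) h3
  rw [← h6] at h7
  have hd0 : d ≠ 0 := by omega
  simpa [zero_pow hd0] using h7

/-- from bounds for the finite subsets -/
lemma finite_ncard {E : Set ℤ} {b : ℝ} (h : ∀ T : Finset ℤ, (∀ t ∈ T, t ∈ E) → (T.card : ℝ) ≤ b) :
    E.Finite ∧ (E.ncard : ℝ) ≤ b := by
  have hfin : E.Finite := by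
    by_contra hcon
    obtain ⟨T, hT, hT'⟩ := (show E.Infinite from hcon).exists_subset_card_eq (⌊b⌋₊ + 1)
    have h1 := h T (fun t ht => hT (mem_coe.2 ht))
    rw [hT'] at h1
    have h2 := Nat.lt_floor_add_one b
    push_cast at h1
    linarith
  refine ⟨hfin, ?_⟩
  rw [Set.ncard_eq_toFinset_card _ hfin]
  exact h _ fun t ht => (Set.Finite.mem_toFinset hfin).1 ht

/-- `t` is not of an exceptional form -/
def Free (d : ℕ) (Q : Finset (ℚ × ℚ)) (q : ℚ) (t : ℤ) : Prop :=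
  ∀ A : ℚ, (q, A) ∈ Q → ∀ z : ℤ, (t : ℚ) ≠ q + A * (z : ℚ) ^ d

section
variable {d : ℕ} {U : ℤ[X]} {Q : Finset (ℚ × ℚ)} {α c : ℤ}

lemma eval_g (U : ℤ[X]) (α c k : ℤ) : (C α * U - C c).eval k = α * U.eval k - c := by simp

/-- the dichotomy for one polynomial -/
lemma cases_U (hd : 2 ≤ d) (hU : U.natDegree = d) (hQ : ∀ x, Pr d U x → ∃ A, (x.1, A) ∈ Q ∧ Pr d U (x.1, A))
    (hα : α ≠ 0) :
    (∀ t : ℤ, (∃ k : ℤ, U.eval k = t) → ¬ Free d Q (c / α) t) ∨
    ∃ (s : ℤ[X]) (M : ℕ), 1 ≤ M ∧ Squarefree (s.map (Int.castRingHom ℚ)) ∧ 2 ≤ s.natDegree ∧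
      s ∣ C (M : ℤ) * (C α * U - C c) := by
  have hαQ : (α : ℚ) ≠ 0 := by exact_mod_cast hα
  have hg : (C α * U - C c).natDegree = d := by
    rw [natDegree_sub_C, natDegree_C_mul hα, hU]
  rcases dich (g := C α * U - C c) (by omega) with h | h
  · left
    obtain ⟨A, r, hA, h1⟩ := h
    rw [hg] at h1
    have h2 : Pr d U ((c : ℚ) / α, (A / α) / (r.den : ℚ) ^ d) := by
      refine ⟨r, A / α, div_ne_zero hA hαQ, ?_, rfl⟩
      rw [Polynomial.map_sub, Polynomial.map_mul, map_C, map_C] at h1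
      simp only [eq_intCast] at h1
      have h3 : U.map (Int.castRingHom ℚ) = C (1 / (α : ℚ)) * (C (α : ℚ) * U.map (Int.castRingHom ℚ)) := by
        rw [← mul_assoc, ← C_mul, one_div_mul_cancel hαQ, C_1, one_mul]
      have h4 : C (α : ℚ) * U.map (Int.castRingHom ℚ) = C (c : ℚ) + C A * (X - C r) ^ d := by
        rw [← h1]
        ring
      rw [h3, h4, mul_add, ← C_mul, ← mul_assoc, ← C_mul, show 1 / (α : ℚ) * c = c / α by ring,
        show 1 / (α : ℚ) * A = A / α by ring]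
    obtain ⟨A', hA', hP⟩ := hQ _ h2
    rintro t ⟨k, rfl⟩ hF
    obtain ⟨z, hz⟩ := hP.val k
    exact hF A' hA' z hz
  · exact Or.inr h

/-- one polynomial, small radicals -/
lemma one_rad (hd : 2 ≤ d) (hU : U.natDegree = d ∨ U.natDegree = 0)
    (hQ : ∀ x, Pr d U x → ∃ A, (x.1, A) ∈ Q ∧ Pr d U (x.1, A)) (hα : α ≠ 0) :
    ∃ (D : ℝ) (e : ℕ), 0 ≤ D ∧ ∀ Y : ℝ, 1 ≤ Y → ∀ T : Finset ℤ,
      (∀ t ∈ T, (∃ k : ℤ, U.eval k = t) ∧ α * t ≠ c ∧ (rad (α * t - c) : ℝ) ≤ Y ∧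
        Free d Q (c / α) t) → (T.card : ℝ) ≤ 1 + D * Y * (1 + Real.log Y) ^ e := by
  classical
  rcases hU with hU | hU
  · rcases cases_U (c := c) hd hU hQ hα with h | ⟨s, M, h1, h2, h3, h4⟩
    · refine ⟨0, 0, le_refl _, fun Y _ T hT => ?_⟩
      have : T = ∅ := by
        rw [eq_empty_iff_forall_notMem]
        intro t ht
        obtain ⟨a1, -, -, a4⟩ := hT t ht
        exact h t a1 a4
      rw [this]
      simp
    · obtain ⟨D, e, hD, h⟩ := count_rad h1 h2 h3 h4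
      refine ⟨D, e, hD.le, fun Y hY T hT => ?_⟩
      choose! κ hκ using fun t ht => (hT t ht).1
      have hinj : Set.InjOn κ (T : Set ℤ) := by
        intro a ha b hb hab
        rw [← hκ a (mem_coe.1 ha), ← hκ b (mem_coe.1 hb), hab]
      have h5 := h Y hY (T.image κ) (by
        intro k hk
        rw [mem_image] at hk
        obtain ⟨t, ht, rfl⟩ := hk
        obtain ⟨-, a2, a3, -⟩ := hT t ht
        rw [eval_g, hκ t ht]
        exact ⟨sub_ne_zero.2 a2, a3⟩)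
      rw [card_image_of_injOn hinj] at h5
      linarith
  · refine ⟨0, 0, le_refl _, fun Y _ T hT => ?_⟩
    have h1 : T.card ≤ 1 := by
      rw [card_le_one]
      intro a ha b hb
      obtain ⟨⟨k, hk⟩, -⟩ := hT a ha
      obtain ⟨⟨l, hl⟩, -⟩ := hT b hb
      rw [eq_C_of_natDegree_eq_zero hU] at hk hl
      rw [eval_C] at hk hl
      rw [← hk, ← hl]
    have : (T.card : ℝ) ≤ 1 := by exact_mod_cast h1
    linarith

/-- one polynomial, given primes -/
lemma one_primes (hd : 2 ≤ d) (hU : U.natDegree = d ∨ U.natDegree = 0)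
    (hQ : ∀ x, Pr d U x → ∃ A, (x.1, A) ∈ Q ∧ Pr d U (x.1, A)) (hα : α ≠ 0) :
    ∃ B : ℕ, ∀ (P : Finset ℕ) (T : Finset ℤ),
      (∀ t ∈ T, (∃ k : ℤ, U.eval k = t) ∧ α * t ≠ c ∧
        (∀ p : ℕ, p.Prime → (p : ℤ) ∣ α * t - c → p ∈ P) ∧
        Free d Q (c / α) t) → T.card ≤ 1 + B ^ (P.card + 1) := by
  classical
  rcases hU with hU | hU
  · rcases cases_U (c := c) hd hU hQ hα with h | ⟨s, M, h1, h2, h3, h4⟩
    · refine ⟨0, fun P T hT => ?_⟩
      have : T = ∅ := by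
        rw [eq_empty_iff_forall_notMem]
        intro t ht
        obtain ⟨a1, -, -, a4⟩ := hT t ht
        exact h t a1 a4
      rw [this]
      simp
    · obtain ⟨B, -, h⟩ := count_primes h1 h2 h3 h4
      refine ⟨B, fun P T hT => ?_⟩
      choose! κ hκ using fun t ht => (hT t ht).1
      have hinj : Set.InjOn κ (T : Set ℤ) := by
        intro a ha b hb hab
        rw [← hκ a (mem_coe.1 ha), ← hκ b (mem_coe.1 hb), hab]
      have h5 := h P (T.image κ) (by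
        intro k hk
        rw [mem_image] at hk
        obtain ⟨t, ht, rfl⟩ := hk
        obtain ⟨-, a2, a3, -⟩ := hT t ht
        rw [eval_g, hκ t ht]
        exact ⟨sub_ne_zero.2 a2, a3⟩)
      rw [card_image_of_injOn hinj] at h5
      omega
  · refine ⟨0, fun P T hT => ?_⟩
    have h1 : T.card ≤ 1 := by
      rw [card_le_one]
      intro a ha b hb
      obtain ⟨⟨k, hk⟩, -⟩ := hT a ha
      obtain ⟨⟨l, hl⟩, -⟩ := hT b hb
      rw [eq_C_of_natDegree_eq_zero hU] at hk hl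
      rw [eval_C] at hk hl
      rw [← hk, ← hl]
    omega

end

/-- a finite set covered by a family -/
lemma card_cover {ι : Type*} (S : Finset ι) (T : Finset ℤ) (α c : ℤ) (hα : α ≠ 0) (R : ι → ℤ → Prop)
    (h : ∀ t ∈ T, ∃ U ∈ S, R U t) (b : ι → ℕ)
    (hb : ∀ U ∈ S, ∀ T' ⊆ T, (∀ t ∈ T', R U t ∧ α * t ≠ c) → T'.card ≤ b U) :
    T.card ≤ 1 + ∑ U ∈ S, b U := by
  classical
  have h1 : T ⊆ T.filter (fun t => α * t = c) ∪
      S.biUnion fun U => T.filter fun t => R U t ∧ α * t ≠ c := by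
    intro t ht
    rw [mem_union, mem_filter, mem_biUnion]
    by_cases h2 : α * t = c
    · exact Or.inl ⟨ht, h2⟩
    · right
      obtain ⟨U, hU, hR⟩ := h t ht
      exact ⟨U, hU, mem_filter.2 ⟨ht, hR, h2⟩⟩
  have h2 : (T.filter (fun t => α * t = c)).card ≤ 1 := by
    rw [card_le_one]
    intro a ha b hb
    rw [mem_filter] at ha hb
    exact mul_left_cancel₀ hα (ha.2.trans hb.2.symm)
  calc T.card ≤ _ := card_le_card h1
    _ ≤ _ := card_union_le _ _
    _ ≤ 1 + ∑ U ∈ S, (T.filter fun t => R U t ∧ α * t ≠ c).card :=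
        Nat.add_le_add h2 card_biUnion_le
    _ ≤ 1 + ∑ U ∈ S, b U := by
        refine Nat.add_le_add_left (sum_le_sum fun U hU => ?_) 1
        exact hb U hU _ (filter_subset _ _) fun t ht => (mem_filter.1 ht).2

/-- **Main statement for the values of finitely many polynomials.** -/
theorem main (d : ℕ) (hd : 2 ≤ d) (S : Finset ℤ[X]) (hS : ∀ U ∈ S, U.natDegree = d ∨ U.natDegree = 0) :
    ∃ Q : Finset (ℚ × ℚ), Q.card ≤ S.card ∧ ∀ α c : ℤ, α ≠ 0 →
      (∃ (D : ℝ) (e : ℕ), ∀ Y : ℝ, 1 ≤ Y → ∀ T : Finset ℤ,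
        (∀ t ∈ T, (∃ U ∈ S, ∃ k : ℤ, U.eval k = t) ∧ (rad (α * t - c) : ℝ) ≤ Y ∧
          Free d Q (c / α) t) → (T.card : ℝ) ≤ D * Y * (1 + Real.log Y) ^ e) ∧
      (∃ E : ℕ, ∀ (P : Finset ℕ) (T : Finset ℤ),
        (∀ t ∈ T, (∃ U ∈ S, ∃ k : ℤ, U.eval k = t) ∧
          (∀ p : ℕ, p.Prime → (p : ℤ) ∣ α * t - c → p ∈ P) ∧
          Free d Q (c / α) t) → T.card ≤ E ^ (P.card + 1)) := by
  classical
  obtain ⟨ch, hch⟩ : ∃ ch : ℤ[X] → ℚ × ℚ, ∀ U, (∃ x, Pr d U x) → Pr d U (ch U) := by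
    refine ⟨fun U => if h : ∃ x, Pr d U x then h.choose else 0, fun U h => ?_⟩
    simp only [h, dif_pos]
    exact h.choose_spec
  refine ⟨S.image ch, card_image_le, fun α c hα => ?_⟩
  have hQ : ∀ U ∈ S, ∀ x, Pr d U x → ∃ A, (x.1, A) ∈ S.image ch ∧ Pr d U (x.1, A) := by
    intro U hU x hx
    have h1 := hch U ⟨x, hx⟩
    have h2 := hx.uniq hd h1
    refine ⟨(ch U).2, ?_, ?_⟩
    · rw [h2]
      exact mem_image_of_mem ch hU
    · rw [h2]
      exact h1
  constructor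
  · have h := fun U : S => one_rad (c := c) hd (hS U.1 U.2) (hQ U.1 U.2) hα
    choose D e hD h using h
    refine ⟨1 + ∑ U : S, (1 + D U), ∑ U : S, e U, fun Y hY T hT => ?_⟩
    obtain ⟨L, hL⟩ : ∃ L : ℝ, L = 1 + Real.log Y := ⟨_, rfl⟩
    have hL1 : 1 ≤ L := by
      rw [hL]
      have := Real.log_nonneg hY
      linarith
    have h1 := card_cover (univ : Finset S) T α c hα (fun U t => ∃ k : ℤ, U.1.eval k = t)
      (fun t ht => by
        obtain ⟨⟨U, hU, hk⟩, -⟩ := hT t ht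
        exact ⟨⟨U, hU⟩, mem_univ _, hk⟩)
      (fun U => ⌊1 + D U * Y * (1 + Real.log Y) ^ e U⌋₊) (fun U _ T' hT' hT'' => by
        apply Nat.le_floor
        refine h U Y hY T' fun t ht => ?_
        obtain ⟨-, a2, a3⟩ := hT t (hT' ht)
        exact ⟨(hT'' t ht).1, (hT'' t ht).2, a2, a3⟩)
    have h2 : (T.card : ℝ) ≤ 1 + ∑ U : S, (1 + D U * Y * L ^ e U) := by
      have h3 : (T.card : ℝ) ≤ ((1 + ∑ U : S, ⌊1 + D U * Y * (1 + Real.log Y) ^ e U⌋₊ : ℕ) : ℝ) := by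
        exact_mod_cast h1
      push_cast at h3
      refine h3.trans (add_le_add_right (sum_le_sum fun U _ => ?_) 1)
      rw [hL]
      apply Nat.floor_le
      have := hD U
      rw [← hL]
      positivity
    rw [← hL]
    obtain ⟨n, hn⟩ : ∃ n, n = ∑ U : S, e U := ⟨_, rfl⟩
    rw [← hn]
    have hLn : 1 ≤ L ^ n := one_le_pow₀ hL1
    have hone : 1 ≤ Y * L ^ n := by nlinarith
    have hterm : ∀ U : S, 1 + D U * Y * L ^ e U ≤ (1 + D U) * (Y * L ^ n) := by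
      intro U
      have h4 : L ^ e U ≤ L ^ n := pow_le_pow_right₀ hL1 (by
        rw [hn]
        exact single_le_sum (f := e) (fun _ _ => Nat.zero_le _) (mem_univ U))
      have h5 : D U * Y * L ^ e U ≤ D U * Y * L ^ n :=
        mul_le_mul_of_nonneg_left h4 (mul_nonneg (hD U) (by linarith))
      nlinarith
    calc (T.card : ℝ) ≤ 1 + ∑ U : S, (1 + D U * Y * L ^ e U) := h2
      _ ≤ Y * L ^ n + ∑ U : S, (1 + D U) * (Y * L ^ n) :=
          add_le_add hone (sum_le_sum fun U _ => hterm U)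
      _ = (1 + ∑ U : S, (1 + D U)) * Y * L ^ n := by rw [← sum_mul]; ring
  · have h := fun U : S => one_primes (c := c) hd (hS U.1 U.2) (hQ U.1 U.2) hα
    choose B h using h
    refine ⟨1 + ∑ U : S, (1 + B U), fun P T hT => ?_⟩
    have h1 := card_cover (univ : Finset S) T α c hα (fun U t => ∃ k : ℤ, U.1.eval k = t)
      (fun t ht => by
        obtain ⟨⟨U, hU, hk⟩, -⟩ := hT t ht
        exact ⟨⟨U, hU⟩, mem_univ _, hk⟩)
      (fun U => 1 + B U ^ (P.card + 1)) (fun U _ T' hT' hT'' => by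
        refine h U P T' fun t ht => ?_
        obtain ⟨-, a2, a3⟩ := hT t (hT' ht)
        exact ⟨(hT'' t ht).1, (hT'' t ht).2, a2, a3⟩)
    obtain ⟨E, hE⟩ : ∃ E, E = 1 + ∑ U : S, (1 + B U) := ⟨_, rfl⟩
    rw [← hE]
    have hE1 : 1 ≤ E ^ P.card := Nat.one_le_pow _ _ (by omega)
    have hterm : ∀ U : S, 1 + B U ^ (P.card + 1) ≤ (1 + B U) * E ^ P.card := by
      intro U
      have h4 : B U ≤ E := by
        rw [hE]
        have := single_le_sum (f := fun U : S => 1 + B U) (fun _ _ => Nat.zero_le _) (mem_univ U)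
        omega
      have h5 : B U ^ P.card ≤ E ^ P.card := Nat.pow_le_pow_left h4 _
      rw [pow_succ]
      nlinarith
    calc T.card ≤ 1 + ∑ U : S, (1 + B U ^ (P.card + 1)) := h1
      _ ≤ E ^ P.card + ∑ U : S, (1 + B U) * E ^ P.card :=
          Nat.add_le_add hE1 (sum_le_sum fun U _ => hterm U)
      _ = (1 + ∑ U : S, (1 + B U)) * E ^ P.card := by rw [add_mul, sum_mul, one_mul]
      _ = E ^ (P.card + 1) := by rw [← hE, pow_succ, mul_comm]

end Pool.Agent.K7.H12.SR
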