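import Pool.Agent.TH498.HF.TM3

/-!
# Values of a polynomial with small radical

If `g ∈ ℤ[X]` is not of the form `A (X - r) ^ d`, then there are only `O (Y (1 + log Y) ^ e)` integers `k`
such that `g(k)` is not zero and has radical at most `Y`, and at most `B ^ (|P| + 1)` such that `g(k)` is
composed of the primes in `P`.
-/

set_option autoImplicit false

namespace Pool.Agent.K7.H12.SR

open Polynomial Finset Pool.Agent.W4.VC Pool.Agent.W4.CF

/-- the product of the primes dividing `n` -/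
def rad (n : ℤ) : ℕ := ∏ p ∈ n.natAbs.primeFactors, p

/-- a polynomial over `ℚ` whose radical has degree one -/
lemma pow_of_radical {G : ℚ[X]} (hG : 1 ≤ G.natDegree)
    (hR : (UniqueFactorizationMonoid.radical G).natDegree ≤ 1) :
    ∃ A r : ℚ, A ≠ 0 ∧ G = C A * (X - C r) ^ G.natDegree := by
  classical
  have hG0 : G ≠ 0 := by rintro rfl; simp at hG
  obtain ⟨R, hRdef⟩ : ∃ R, R = UniqueFactorizationMonoid.radical G := ⟨_, rfl⟩
  rw [← hRdef] at hR
  have hnu : ¬ IsUnit G := by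
    intro h
    have := natDegree_eq_zero_of_isUnit h
    omega
  obtain ⟨p, hp, hpG⟩ := WfDvdMonoid.exists_irreducible_factor hnu hG0
  have hdvd : ∀ q : ℚ[X], Irreducible q → (q ∣ R ↔ q ∣ G) := fun q hq => by
    rw [hRdef]
    exact UniqueFactorizationMonoid.dvd_radical_iff_of_irreducible hq hG0
  have hR0 : R ≠ 0 := by rw [hRdef]; exact UniqueFactorizationMonoid.radical_ne_zero
  have hpR : p ∣ R := (hdvd p hp).2 hpG
  have hp1 : p.natDegree = 1 := by
    have h1 := natDegree_le_of_dvd hpR hR0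
    have h2 := hp.natDegree_pos
    omega
  have hall : ∀ q : ℚ[X], Irreducible q → q ∣ G → p ∣ q := by
    intro q hq hqG
    obtain ⟨s, hs⟩ := (hdvd q hq).2 hqG
    have hq1 := hq.natDegree_pos
    have hs0 : s ≠ 0 := by rintro rfl; rw [mul_zero] at hs; exact hR0 hs
    have h3 : R.natDegree = q.natDegree + s.natDegree := by
      rw [hs, natDegree_mul hq.ne_zero hs0]
    have hsd : s.natDegree = 0 := by omega
    have hpq : p ∣ q * s := by rw [← hs]; exact hpR
    rcases hp.prime.dvd_or_dvd hpq with h | h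
    · exact h
    · have := natDegree_le_of_dvd h hs0
      omega
  obtain ⟨r, hr⟩ : ∃ r : ℚ, (X - C r) ∣ p ∧ p ∣ (X - C r) := by
    have hroot : ∃ r : ℚ, p.IsRoot r := by
      refine ⟨-(p.coeff 0) / (p.coeff 1), ?_⟩
      have h1 : p.coeff 1 ≠ 0 := by
        rw [← hp1]
        exact leadingCoeff_ne_zero.2 hp.ne_zero
      rw [IsRoot.def, eval_eq_sum_range, hp1, sum_range_succ, sum_range_one]
      field_simp
      ring
    obtain ⟨r, hr⟩ := hroot
    have h1 : (X - C r) ∣ p := dvd_iff_isRoot.2 hr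
    exact ⟨r, h1, ((irreducible_X_sub_C r).associated_of_dvd hp h1).symm.dvd⟩
  obtain ⟨q, hq1, hq2⟩ := exists_eq_pow_rootMultiplicity_mul_and_not_dvd G hG0 r
  have hqu : IsUnit q := by
    by_contra hcon
    have hq0 : q ≠ 0 := by
      rintro rfl
      exact hq2 (dvd_zero _)
    obtain ⟨w, hw, hwq⟩ := WfDvdMonoid.exists_irreducible_factor hcon hq0
    have h1 : p ∣ w := hall w hw (hwq.trans (by rw [hq1]; exact dvd_mul_left _ _))
    exact hq2 ((hr.1.trans h1).trans hwq)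
  obtain ⟨A, hA, hAq⟩ := isUnit_iff.1 hqu
  have hA0 : A ≠ 0 := hA.ne_zero
  refine ⟨A, r, hA0, ?_⟩
  have hdeg : G.natDegree = rootMultiplicity r G := by
    conv_lhs => rw [hq1, ← hAq]
    rw [natDegree_mul (pow_ne_zero _ (X_sub_C_ne_zero r)) (C_ne_zero.2 hA0), natDegree_pow,
      natDegree_X_sub_C, natDegree_C]
    ring
  rw [hdeg]
  conv_lhs => rw [hq1, ← hAq]
  rw [mul_comm]

/-- clearing denominators -/
lemma exists_int (R : ℚ[X]) : ∃ (s : ℤ[X]) (b : ℤ), b ≠ 0 ∧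
    s.map (Int.castRingHom ℚ) = C (b : ℚ) * R := by
  obtain ⟨b, hb⟩ := IsLocalization.integerNormalization_map_to_map (nonZeroDivisors ℤ) R
  refine ⟨IsLocalization.integerNormalization (nonZeroDivisors ℤ) R, b, nonZeroDivisors.coe_ne_zero b, ?_⟩
  have h1 : (Int.castRingHom ℚ) = algebraMap ℤ ℚ := rfl
  rw [h1, hb]
  ext i
  rw [coeff_C_mul]
  simp [Algebra.smul_def]

lemma map_inj' {f g : ℤ[X]} (h : f.map (Int.castRingHom ℚ) = g.map (Int.castRingHom ℚ)) : f = g :=
  Polynomial.map_injective _ Int.cast_injective h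

/-- the dichotomy -/
lemma dich {g : ℤ[X]} (hg : 1 ≤ g.natDegree) :
    (∃ A r : ℚ, A ≠ 0 ∧ g.map (Int.castRingHom ℚ) = C A * (X - C r) ^ g.natDegree) ∨
    ∃ (s : ℤ[X]) (M : ℕ), 1 ≤ M ∧ Squarefree (s.map (Int.castRingHom ℚ)) ∧ 2 ≤ s.natDegree ∧
      s ∣ C (M : ℤ) * g := by
  obtain ⟨G, hG⟩ : ∃ G, G = g.map (Int.castRingHom ℚ) := ⟨_, rfl⟩
  have hGd : G.natDegree = g.natDegree := by
    rw [hG]; exact natDegree_map_eq_of_injective Int.cast_injective g
  rcases le_or_gt (UniqueFactorizationMonoid.radical G).natDegree 1 with h | h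
  · left
    obtain ⟨A, r, hA, hr⟩ := pow_of_radical (G := G) (by omega) h
    exact ⟨A, r, hA, by rw [← hG, ← hGd]; exact hr⟩
  · right
    obtain ⟨R, hR⟩ : ∃ R, R = UniqueFactorizationMonoid.radical G := ⟨_, rfl⟩
    rw [← hR] at h
    obtain ⟨H, hH⟩ : R ∣ G := by rw [hR]; exact UniqueFactorizationMonoid.radical_dvd_self
    obtain ⟨s, b, hb, hs⟩ := exists_int R
    obtain ⟨h', b', hb', hh'⟩ := exists_int H
    have hbQ : (b : ℚ) ≠ 0 := by exact_mod_cast hb
    have hsd : s.natDegree = R.natDegree := by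
      rw [← natDegree_map_eq_of_injective (f := Int.castRingHom ℚ) Int.cast_injective s, hs,
        natDegree_C_mul hbQ]
    have hsq : Squarefree (s.map (Int.castRingHom ℚ)) := by
      rw [hs]
      have h1 : Squarefree R := by rw [hR]; exact UniqueFactorizationMonoid.squarefree_radical
      have h2 : Associated (C (b : ℚ) * R) R :=
        (associated_unit_mul_left R _ (isUnit_C.2 (isUnit_iff_ne_zero.2 hbQ)))
      exact h1.squarefree_of_dvd h2.dvd
    refine ⟨s, (b * b').natAbs, ?_, hsq, by omega, ?_⟩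
    · exact Nat.one_le_iff_ne_zero.2 (Int.natAbs_ne_zero.2 (mul_ne_zero hb hb'))
    · have h3 : C (b * b') * g = s * h' := by
        apply map_inj'
        rw [Polynomial.map_mul, Polynomial.map_mul, hs, hh', map_C, ← hG, hH]
        simp only [eq_intCast, Int.cast_mul, map_mul]
        ring
      have h4 : s ∣ C (b * b') * g := by rw [h3]; exact dvd_mul_right _ _
      rcases Int.natAbs_eq (b * b') with h5 | h5
      · rw [← h5]; exact h4
      · have h6 : (((b * b').natAbs : ℕ) : ℤ) = -(b * b') := by omega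
        rw [h6, C_neg, neg_mul]
        exact (dvd_neg).2 h4

lemma hom_one (s : ℤ[X]) (k : ℤ) : hom s (s.natDegree + 1) k 1 = s.eval k := by
  unfold hom
  rw [eval_eq_sum_range, sum_range_succ]
  simp

lemma radp_le {s g : ℤ[X]} {M : ℕ} (hd : s ∣ C (M : ℤ) * g) {k : ℤ} (hg : g.eval k ≠ 0) :
    radp M (s.eval k).natAbs ≤ rad (g.eval k) := by
  unfold radp rad
  apply Nat.le_of_dvd (Finset.prod_pos fun p hp => (Nat.prime_of_mem_primeFactors hp).pos)
  apply Finset.prod_dvd_prod_of_subset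
  intro p hp
  rw [mem_filter, Nat.mem_primeFactors] at hp
  obtain ⟨⟨hpp, hps, -⟩, hpM⟩ := hp
  rw [Nat.mem_primeFactors]
  refine ⟨hpp, ?_, Int.natAbs_ne_zero.2 hg⟩
  obtain ⟨h, hh⟩ := hd
  have h1 : (M : ℤ) * g.eval k = s.eval k * h.eval k := by
    have := congrArg (Polynomial.eval k) hh
    simpa using this
  have h2 : (p : ℤ) ∣ (M : ℤ) * g.eval k := by
    rw [h1]
    exact Dvd.dvd.mul_right (Int.natCast_dvd.2 hps) _
  rcases (Nat.prime_iff_prime_int.1 hpp).dvd_or_dvd h2 with h3 | h3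
  · exact absurd (Int.natCast_dvd_natCast.1 h3) hpM
  · exact Int.natCast_dvd.1 h3

lemma eval_ne {s g : ℤ[X]} {M : ℕ} (hM : 1 ≤ M) (hd : s ∣ C (M : ℤ) * g) {k : ℤ} (hg : g.eval k ≠ 0) :
    s.eval k ≠ 0 := by
  intro h0
  obtain ⟨h, hh⟩ := hd
  have h1 : (M : ℤ) * g.eval k = s.eval k * h.eval k := by
    have := congrArg (Polynomial.eval k) hh
    simpa using this
  rw [h0, zero_mul] at h1
  rcases mul_eq_zero.1 h1 with h2 | h2
  · have : (M : ℤ) ≠ 0 := by exact_mod_cast (by omega : M ≠ 0)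
    exact this h2
  · exact hg h2

/-- **Small radicals.** -/
theorem count_rad {g s : ℤ[X]} {M : ℕ} (hM : 1 ≤ M) (hsq : Squarefree (s.map (Int.castRingHom ℚ)))
    (hs : 2 ≤ s.natDegree) (hd : s ∣ C (M : ℤ) * g) :
    ∃ (C : ℝ) (e : ℕ), 0 < C ∧ ∀ Y : ℝ, 1 ≤ Y → ∀ K : Finset ℤ,
      (∀ k ∈ K, g.eval k ≠ 0 ∧ (rad (g.eval k) : ℝ) ≤ Y) →
      (K.card : ℝ) ≤ C * Y * (1 + Real.log Y) ^ e := by
  classical
  obtain ⟨C, e, hC, h⟩ := Pool.Agent.TH498.HF.TMsum s (s.natDegree + 1) ⟨hsq, by omega, le_refl _⟩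
    (by omega) M hM
  refine ⟨C, e, hC, fun Y hY K hK => ?_⟩
  have h1 := h Y hY (K.image fun k => (k, (1 : ℤ))) (by
    intro x hx
    rw [mem_image] at hx
    obtain ⟨k, hk, rfl⟩ := hx
    obtain ⟨h2, h3⟩ := hK k hk
    simp only
    rw [hom_one]
    refine ⟨isCoprime_one_right, eval_ne hM hd h2, ?_⟩
    have h4 := radp_le hd h2
    have h5 : ((radp M (s.eval k).natAbs : ℕ) : ℝ) ≤ rad (g.eval k) := by exact_mod_cast h4
    exact h5.trans h3)
  rwa [card_image_of_injective _ (fun a b h => (Prod.mk.inj h).1)] at h1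

/-- **Given primes.** -/
theorem count_primes {g s : ℤ[X]} {M : ℕ} (hM : 1 ≤ M) (hsq : Squarefree (s.map (Int.castRingHom ℚ)))
    (hs : 2 ≤ s.natDegree) (hd : s ∣ C (M : ℤ) * g) :
    ∃ B : ℕ, 1 ≤ B ∧ ∀ (P : Finset ℕ) (K : Finset ℤ),
      (∀ k ∈ K, g.eval k ≠ 0 ∧ ∀ p : ℕ, p.Prime → (p : ℤ) ∣ g.eval k → p ∈ P) →
      K.card ≤ B ^ (P.card + 1) := by
  classical
  obtain ⟨B, hB, h⟩ := Pool.Agent.TH498.HF.TM s (s.natDegree + 1) ⟨hsq, by omega, le_refl _⟩
    (by omega) M hM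
  refine ⟨B, hB, fun P K hK => ?_⟩
  have h1 := h P (K.image fun k => (k, (1 : ℤ))) (by
    intro x hx
    rw [mem_image] at hx
    obtain ⟨k, hk, rfl⟩ := hx
    obtain ⟨h2, h3⟩ := hK k hk
    simp only
    rw [hom_one]
    refine ⟨isCoprime_one_right, eval_ne hM hd h2, fun p hp hpd => ?_⟩
    obtain ⟨h, hh⟩ := hd
    have h4 : (M : ℤ) * g.eval k = s.eval k * h.eval k := by
      have := congrArg (Polynomial.eval k) hh
      simpa using this
    have h5 : (p : ℤ) ∣ (M : ℤ) * g.eval k := by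
      rw [h4]
      exact Dvd.dvd.mul_right (Int.natCast_dvd.2 hpd) _
    rcases (Nat.prime_iff_prime_int.1 hp).dvd_or_dvd h5 with h6 | h6
    · exact Or.inr (Int.natCast_dvd_natCast.1 h6)
    · exact Or.inl (h3 p hp h6))
  rwa [card_image_of_injective _ (fun a b h => (Prod.mk.inj h).1)] at h1

end Pool.Agent.K7.H12.SR
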